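import Pool.Agent.W182.PW.Tup

set_option autoImplicit false

/-!
# Almost prime triples in all windows around a positive proportion of the integers

Let `H` be `{2, 6}` or `{4, 6}`. There are `r` and `c₁, c₂, K > 0` such that a positive proportion of
all integers `n` is regular: every interval `(a, b]` with `a ≤ n ≤ b` and `K log³ n ≤ b - a ≤ n`
contains between `c₁ (b - a) / log³ n` and `c₂ (b - a) / log³ n` primes `p` for which the two numbers
`p + h`, `h ∈ H`, have at most `r` prime factors each, all larger than `n ^ (1 / r)`.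
-/

namespace Pool.Agent.Results.MP_c0d11e_nt.RegularWindows

open Finset Filter

/-- `p` is prime and each `p + h`, `h ∈ H`, has at most `r` prime factors (with multiplicity), all of
them larger than `z`. -/
def AlmostTuple (H : Finset ℕ) (r : ℕ) (z : ℝ) (p : ℕ) : Prop :=
  p.Prime ∧ ∀ h ∈ H, (p + h).primeFactorsList.length ≤ r ∧
    ∀ q : ℕ, q.Prime → q ∣ p + h → z < (q : ℝ)

open Classical in
/-- `n` is regular. -/
def Regular (H : Finset ℕ) (r : ℕ) (c₁ c₂ K : ℝ) (n : ℕ) : Prop :=
  ∀ a b : ℕ, a ≤ n → n ≤ b → K * Real.log n ^ (3) ≤ (b : ℝ) - a → (b : ℝ) - a ≤ n →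
    c₁ * ((b : ℝ) - a) / Real.log n ^ (3) ≤
      (((Finset.Ioc a b).filter (fun p => AlmostTuple H r ((n : ℝ) ^ (1 / (r : ℝ))) p)).card : ℝ) ∧
    (((Finset.Ioc a b).filter (fun p => AlmostTuple H r ((n : ℝ) ^ (1 / (r : ℝ))) p)).card : ℝ) ≤
      c₂ * ((b : ℝ) - a) / Real.log n ^ (3)

open Classical in
/-- **Almost prime triples: regular windows.** For both shapes, for some `r` and positive
`c₁, c₂, K, κ` and all large `x` at least `κ x` of the integers `n` in `[1, x]` are regular. -/
theorem result (H : Finset ℕ) (hH : H = {2, 6} ∨ H = {4, 6}) :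
    ∃ (r : ℕ) (c₁ c₂ K κ : ℝ), 0 < c₁ ∧ 0 < c₂ ∧ 0 < K ∧ 0 < κ ∧
    ∀ᶠ x : ℕ in atTop,
      κ * x ≤ (((Finset.Icc 1 x).filter (fun n => Regular H r c₁ c₂ K n)).card : ℝ) := by
  rcases hH with rfl | rfl
  · exact Pool.Agent.W182.PW.main_tuple {2, 6} (by decide) (Pool.Agent.W182.PW.adm_of _ 12 (by decide) (by norm_num) (by
      intro p hp hpp
      interval_cases p
      · exact absurd hpp Nat.not_prime_zero
      · exact absurd hpp Nat.not_prime_one
      · exact ⟨1, by decide⟩
      · exact ⟨2, by decide⟩
      · exact absurd hpp (by norm_num)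
      · exact ⟨1, by decide⟩
      · exact absurd hpp (by norm_num)
      · exact ⟨2, by decide⟩
      · exact absurd hpp (by norm_num)
      · exact absurd hpp (by norm_num)
      · exact absurd hpp (by norm_num)
      · exact ⟨2, by decide⟩))
  · exact Pool.Agent.W182.PW.main_tuple {4, 6} (by decide) (Pool.Agent.W182.PW.adm_of _ 12 (by decide) (by norm_num) (by
      intro p hp hpp
      interval_cases p
      · exact absurd hpp Nat.not_prime_zero
      · exact absurd hpp Nat.not_prime_one
      · exact ⟨1, by decide⟩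
      · exact ⟨1, by decide⟩
      · exact absurd hpp (by norm_num)
      · exact ⟨2, by decide⟩
      · exact absurd hpp (by norm_num)
      · exact ⟨2, by decide⟩
      · exact absurd hpp (by norm_num)
      · exact absurd hpp (by norm_num)
      · exact absurd hpp (by norm_num)
      · exact ⟨2, by decide⟩))

end Pool.Agent.Results.MP_c0d11e_nt.RegularWindows
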